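import Pool.Agent.Lib.MP_55ef7c_ag.Height

/-!
Heights of products of factors `x - t`, where `x` does not involve the variable `t`.
-/

namespace Pool.Agent.Lib.MP_55ef7c_ag

open MvPolynomial

variable {σ K : Type*} [Field K]

lemma free_of_dvd {t : σ} {c B : MvPolynomial σ K} (hB : B ≠ 0) (h : t ∉ B.vars) (hc : c ∣ B) :
    t ∉ c.vars := by
  obtain ⟨e, rfl⟩ := hc
  rw [mem_vars_iff_degreeOf_ne_zero, not_not] at h ⊢
  rw [degreeOf_mul_eq (left_ne_zero_of_mul hB) (right_ne_zero_of_mul hB)] at h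
  omega

/-- The subfield of rational functions that do not involve `t`. -/
noncomputable def freeField (K : Type*) [Field K] (t : σ) : Subfield (Fn σ K) :=
  Subfield.closure (((supported K ({t}ᶜ : Set σ)).toSubring.map
    (algebraMap (MvPolynomial σ K) (Fn σ K)) : Subring (Fn σ K)) : Set (Fn σ K))

lemma X_mem_freeField {t i : σ} (h : i ≠ t) : emb (X i : MvPolynomial σ K) ∈ freeField K t :=
  Subfield.subset_closure ⟨X i, X_mem_supported.2 h, rfl⟩

lemma exists_free {t : σ} {u : Fn σ K} (h : u ∈ freeField K t) :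
    ∃ A B : MvPolynomial σ K, B ≠ 0 ∧ IsRelPrime A B ∧ u * emb B = emb A ∧
      ht u = max A.totalDegree B.totalDegree ∧ t ∉ A.vars ∧ t ∉ B.vars := by
  obtain ⟨A, B, hB, hc, e, hh⟩ := exists_rep u
  refine ⟨A, B, hB, hc, e, hh, ?_⟩
  obtain ⟨y, hy, z, hz, rfl⟩ := Subfield.mem_closure_iff.1 h
  rw [Subring.closure_eq] at hy hz
  obtain ⟨a, ha, rfl⟩ := hy
  obtain ⟨b, hb, rfl⟩ := hz
  have ha' : t ∉ a.vars := fun k => (mem_supported.1 ha) k rfl
  have hb' : t ∉ b.vars := fun k => (mem_supported.1 hb) k rfl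
  have zero : emb A = 0 → t ∉ A.vars ∧ t ∉ B.vars := fun k => by
    have hA : A = 0 := by
      by_contra k'
      exact emb_ne k' k
    subst hA
    refine ⟨by simp, free_of_dvd one_ne_zero (by simp) (isUnit_iff_dvd_one.1 ?_)⟩
    exact hc (dvd_zero _) dvd_rfl
  by_cases hb0 : b = 0
  · exact zero (by rw [← e, hb0]; simp)
  by_cases ha0 : a = 0
  · exact zero (by rw [← e, ha0]; simp)
  have k : A * b = a * B := emb_inj (by
    have := emb_ne hb0
    simp only [emb, map_mul] at *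
    rw [← e]; field_simp)
  obtain ⟨g, hg1, hg2⟩ := exists_mul_of_rep hB hc k
  exact ⟨free_of_dvd ha0 ha' ⟨g, by rw [hg1]; ring⟩, free_of_dvd hb0 hb' ⟨g, by rw [hg2]; ring⟩⟩

/-- `u` has a numerator prime to all `t`-free polynomials, of degree at least `h / c`. -/
def QQ (t : σ) (c : ℕ) (u : Fn σ K) (h : ℕ) : Prop :=
  ∃ A B : MvPolynomial σ K, A ≠ 0 ∧ B ≠ 0 ∧ t ∉ B.vars ∧
    (∀ B', B' ≠ 0 → t ∉ B'.vars → IsRelPrime A B') ∧ u * emb B = emb A ∧ h ≤ c * A.totalDegree

lemma QQ.mono {t : σ} {c h h' : ℕ} {u : Fn σ K} (k : QQ t c u h) (hh : h' ≤ h) : QQ t c u h' := by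
  obtain ⟨A, B, h1, h2, h3, h4, h5, h6⟩ := k
  exact ⟨A, B, h1, h2, h3, h4, h5, hh.trans h6⟩

lemma QQ.one (t : σ) (c : ℕ) : QQ t c (1 : Fn σ K) 0 :=
  ⟨1, 1, one_ne_zero, one_ne_zero, by simp, fun _ _ _ => isRelPrime_one_left, one_mul _,
    Nat.zero_le _⟩

lemma QQ.mul {t : σ} {c h h' : ℕ} {u v : Fn σ K} (k : QQ t c u h) (k' : QQ t c v h') :
    QQ t c (u * v) (h + h') := by
  classical
  obtain ⟨A, B, h1, h2, h3, h4, h5, h6⟩ := k
  obtain ⟨A', B', h1', h2', h3', h4', h5', h6'⟩ := k'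
  refine ⟨A * A', B * B', mul_ne_zero h1 h1', mul_ne_zero h2 h2', fun k => ?_,
    fun C hC hC' => (h4 C hC hC').mul_left (h4' C hC hC'), ?_, ?_⟩
  · rcases Finset.mem_union.1 (vars_mul _ _ k) with k | k
    · exact h3 k
    · exact h3' k
  · simp only [emb, map_mul] at *
    rw [← h5, ← h5']; ring
  · rw [totalDegree_mul_of_isDomain h1 h1', mul_add]
    exact add_le_add h6 h6'

lemma QQ.le_ht {t : σ} {c h : ℕ} {u : Fn σ K} (k : QQ t c u h) : h ≤ c * ht u := by
  obtain ⟨A, B, h1, h2, h3, h4, h5, h6⟩ := k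
  rw [ht_eq h2 (h4 B h2 h3) h5]
  exact h6.trans (Nat.mul_le_mul_left _ (le_max_left _ _))

lemma QQ.base {t : σ} {c h : ℕ} {x : Fn σ K} (hx : x ∈ freeField K t) (hh : h ≤ c * ht x) :
    QQ t c (x - emb (X t)) h := by
  classical
  obtain ⟨A, B, hB, hc, e, hd, hA, hB'⟩ := exists_free hx
  have hp : pderiv t (A - X t * B) = -B := by
    simp [pderiv_eq_zero_of_notMem_vars hA, pderiv_eq_zero_of_notMem_vars hB']
  have h0 : A - X t * B ≠ 0 := fun k => hB (by simpa [k] using hp.symm)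
  refine ⟨A - X t * B, B, h0, hB, hB', fun C hC hC' c h1 h2 => ?_, ?_, hh.trans ?_⟩
  · have h3 := pderiv_eq_zero_of_notMem_vars (free_of_dvd hC hC' h2)
    have h4 : c ∣ B := by
      obtain ⟨e, he⟩ := h1
      rw [he, Derivation.leibniz, h3, smul_zero, add_zero, smul_eq_mul] at hp
      exact ⟨-pderiv t e, by rw [mul_neg, hp, neg_neg]⟩
    refine hc ?_ h4
    have := dvd_add h1 (h4.mul_left (X t))
    rwa [sub_add_cancel] at this
  · simp only [emb, map_mul, map_sub] at *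
    rw [← e]; ring
  · refine Nat.mul_le_mul_left _ ?_
    have free : ∀ {p : MvPolynomial σ K}, t ∉ p.vars → ∀ m ∈ p.support, m t = 0 :=
      fun hp m hm => by
        by_contra k
        exact hp ((mem_vars_iff_mem_support t).2 ⟨m, hm, Finsupp.mem_support_iff.2 k⟩)
    rw [hd, max_le_iff]
    constructor
    · refine Finset.sup_le fun m hm => le_totalDegree ?_
      rw [mem_support_iff, coeff_sub, coeff_X_mul', if_neg (by simp [free hA m hm]), sub_zero]
      exact mem_support_iff.1 hm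
    · refine Finset.sup_le fun m hm => ?_
      have k : Finsupp.single t 1 + m ∈ (A - X t * B).support := by
        rw [mem_support_iff, coeff_sub, coeff_X_mul]
        have : coeff (Finsupp.single t 1 + m) A = 0 := by
          by_contra k
          have := free hA _ (mem_support_iff.2 k)
          simp at this
        rw [this, zero_sub, neg_ne_zero]
        exact mem_support_iff.1 hm
      refine le_trans ?_ (le_totalDegree k)
      rw [Finsupp.sum_add_index' (fun _ => rfl) (fun _ _ _ => rfl)]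
      exact Nat.le_add_left _ _

lemma QQ.step {t : σ} {c n0 j : ℕ} {g z : ℕ → Fn σ K} (h0 : z 0 = 1)
    (hz : ∀ n, z (n + 1) = z n * g n) (hg : ∀ n, QQ t c (g n) ((n - n0).choose j)) (n : ℕ) :
    QQ t c (z n) ((n - n0).choose (j + 1)) := by
  induction n with
  | zero => rw [h0]; exact (QQ.one t c).mono (by simp)
  | succ n ih =>
    rw [hz]
    refine (ih.mul (hg n)).mono ?_
    rcases le_or_gt n0 n with k | k
    · rw [Nat.succ_sub k, Nat.choose_succ_succ']
      omega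
    · rw [Nat.sub_eq_zero_of_le k]
      simp

lemma pow_le_choose (n0 k : ℕ) : ∃ C, ∀ n, n ^ (k + 1) ≤ C * (n - n0).choose (k + 1)
    + C * (n + 1) ^ k := by
  refine ⟨2 ^ (k + 1) * (k + 1).factorial + 2 * (n0 + (k + 1)), fun n => ?_⟩
  rcases le_or_gt (2 * (n0 + (k + 1))) n with h | h
  · refine le_trans ?_ (Nat.le_add_right _ _)
    refine le_trans ?_ (Nat.mul_le_mul_right _ (Nat.le_add_right _ _))
    rw [mul_assoc, ← Nat.descFactorial_eq_factorial_mul_choose]
    refine le_trans ?_ (Nat.mul_le_mul_left _ (Nat.pow_sub_le_descFactorial _ _))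
    rw [← mul_pow]
    exact Nat.pow_le_pow_left (by omega) _
  · refine le_trans ?_ (Nat.le_add_left _ _)
    rw [pow_succ, mul_comm]
    exact Nat.mul_le_mul (by omega) (Nat.pow_le_pow_left (by omega) _)

lemma choose_le_of {k C : ℕ} {f : ℕ → ℕ} (h : ∀ n, n ^ (k + 1) ≤ C * f n + C * (n + 1) ^ k) :
    ∃ n0, ∀ n, (n - n0).choose (k + 1) ≤ 2 * C * f n := by
  refine ⟨2 * C * 2 ^ k + 1, fun n => ?_⟩
  rcases le_or_gt (2 * C * 2 ^ k + 1) n with hn | hn
  · have hn1 : n + 1 ≤ 2 * n := by omega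
    have h1 := h n
    have h3 : 2 * (C * (n + 1) ^ k) ≤ n ^ (k + 1) := by
      calc 2 * (C * (n + 1) ^ k) ≤ 2 * (C * (2 * n) ^ k) := by gcongr
        _ = n ^ k * (2 * C * 2 ^ k) := by rw [mul_pow]; ring
        _ ≤ n ^ k * n := Nat.mul_le_mul_left _ (by omega)
        _ = n ^ (k + 1) := by ring
    have h4 : (n - (2 * C * 2 ^ k + 1)).choose (k + 1) ≤ n ^ (k + 1) :=
      (Nat.choose_le_pow _ _).trans (Nat.pow_le_pow_left (by omega) _)
    refine h4.trans ?_
    rw [mul_assoc]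
    omega
  · rw [Nat.sub_eq_zero_of_le hn.le]
    simp

end Pool.Agent.Lib.MP_55ef7c_ag
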