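import Pool.Agent.Lib.MP_55ef7c_ag.Sextic
import Pool.Agent.Lib.MP_55ef7c_ag.Tower.A

/-!
Orbits of the sextic map in a function field with any number of variables.
-/

namespace Pool.Agent.Lib.MP_55ef7c_ag

open MvPolynomial WeierstrassCurve WeierstrassCurve.Affine

variable {σ K : Type*} [Field K]

theorem special4 (K : Type*) [Field K] (i0 t : σ) (hit : i0 ≠ t) :
    ∃ w : ℕ → Fin 5 → Fn σ K, w 0 0 = 1 ∧ (∀ n, G4 (w n)) ∧ (∀ n i, w (n + 1) i = Phi4 i (w n)) ∧
      (∃ C, ∀ n, n ^ (5 + 1) ≤ C * ht (w n 4) + C * (n + 1) ^ 5) ∧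
      ∀ n, w n 4 ∈ freeField K t := by
  classical
  have hD := disc_ne' (K := K) i0
  obtain ⟨st, hst⟩ : ∃ st, st = st4 (pt0 hD) (300 • pt0 hD, 90000 • pt0 hD, 27000000 • pt0 hD) :=
    ⟨_, rfl⟩
  have est : ∀ n, st n = ((300 + n) • S0 K i0, (90000 + n * 300 + n.choose 2) • S0 K i0,
        (27000000 + n * 90000 + n.choose 2 * 300 + n.choose 3) • S0 K i0) := fun n => by
    rw [hst, st4_eq]
    simp only [add_nsmul, mul_nsmul']
  have sst : ∀ n, st (n + 1) = ((st n).1 + pt0 hD, (st n).2.1 + (st n).1,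
      (st n).2.2 + (st n).2.1) := fun n => by rw [hst, st4]
  have inv : ∀ n, Inv4 (st n) := fun n => by
    rw [est]
    exact ⟨px_S0_ne_zero _ (by omega), py_S0_ne_zero _ (by omega), px_S0_ne_zero _ (by omega),
      px_S0_ne_zero _ (by omega)⟩
  have good : ∀ n, G4 (pt4 (st n)) := fun n => by
    rw [G4_pt4]
    obtain ⟨h1, h2, h3, h4⟩ := inv n
    obtain ⟨h1', h2', h3', h4'⟩ := sst n ▸ inv (n + 1)
    have n1 : px (st n).2.1 ≠ px (st n).1 := by
      rw [est]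
      exact px_S0_ne _ (by omega) (by omega)
    have n2 : px (st n).2.1 ≠ px ((st n).1 + pt0 hD) := by
      rw [est, ← succ_nsmul]
      exact px_S0_ne _ (by omega) (by omega)
    have n3 : px (st n).2.2 ≠ px (st n).2.1 := by
      rw [est]
      exact px_S0_ne _ (by omega) (by omega)
    have hd : tD ((py (st n).2.1 / px (st n).2.1) / (py (st n).1 / px (st n).1))
        ((py (st n).2.2 / px (st n).2.2) / (py (st n).1 / px (st n).1))
        (px (st n).2.1 / px (st n).1) (px (st n).2.2 / px (st n).1) ≠ 0 := fun h0 => by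
      have k := hx_le_of_tD h1 h2 h4 (slope_ne hD h1 h3 n1 n2) h0
      rw [est] at k
      have k1 := hx_nsmul (S0 K i0) (300 + n)
      have k2 := hx_nsmul (S0 K i0) (90000 + n * 300 + n.choose 2)
      have k3 := sq_le_hx (K := K) i0
        (27000000 + n * 90000 + n.choose 2 * 300 + n.choose 3)
      rw [hx_S0, ht_one, ht_emb, totalDegree_X] at k1 k2
      rw [ht_one, ht_emb, totalDegree_X] at k
      have k4 : (300 + n) ^ 2 ≤ (90000 + n * 300 + n.choose 2) ^ 2 :=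
        Nat.pow_le_pow_left (by omega) 2
      have k5 : (300 * (90000 + n * 300 + n.choose 2)) ^ 2
          ≤ (27000000 + n * 90000 + n.choose 2 * 300 + n.choose 3) ^ 2 :=
        Nat.pow_le_pow_left (by omega) 2
      have k6 : 1 ^ 2 ≤ (90000 + n * 300 + n.choose 2) ^ 2 := Nat.pow_le_pow_left (by omega) 2
      rw [mul_pow] at k5
      simp only at k
      omega
    have ht := tt_eq h1 h2 h3 h4 rfl rfl rfl rfl rfl hd
    have hG := G2_of hD h1 h2 h3 rfl rfl rfl ht n1 n2 h1' h2' h3'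
    obtain ⟨k5, -⟩ := core_eq3 h1 h2 h3 h4 rfl rfl rfl rfl rfl ht hG.2.2.1 n3
    refine ⟨hd, hG, div_ne_zero h4 h1, ?_, ?_⟩
    · rw [← mul_sub, ← sub_div]
      exact mul_ne_zero hG.1 (div_ne_zero (sub_ne_zero.2 n3) h1)
    · rw [k5]
      exact mul_ne_zero (pow_ne_zero _ (div_ne_zero h1 h2)) h4'
  refine ⟨fun n => pt4 (st n), rfl, good,
    fun n i => by
      have := (step4 hD (inv n) (good n)).2 i
      rwa [← sst n] at this, ?_, fun n => ?_⟩
  · obtain ⟨C, hC⟩ : PB (fun n => 3456 * hx ((300 + n) • S0 K i0) + 6912) 5 :=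
      (((PB.hx_nsmul (e := 1) ⟨300, fun n => by rw [pow_one]; omega⟩ _).cmul 3456).mono
        (by omega)).add (PB.const _ _)
    refine ⟨C + 3456, fun n => ?_⟩
    have h1 := sq_le_hx (K := K) i0 (27000000 + n * 90000 + n.choose 2 * 300 + n.choose 3)
    have h2 : n ^ 3 ≤ 6 * (27000000 + n * 90000 + n.choose 2 * 300 + n.choose 3) := by
      have := six_mul_choose n
      omega
    have h3 : n ^ (5 + 1) ≤ 36 * (27000000 + n * 90000 + n.choose 2 * 300 + n.choose 3) ^ 2 := by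
      calc n ^ (5 + 1) = (n ^ 3) ^ 2 := by ring
        _ ≤ (6 * (27000000 + n * 90000 + n.choose 2 * 300 + n.choose 3)) ^ 2 :=
          Nat.pow_le_pow_left h2 2
        _ = _ := by ring
    have h4 : hx ((27000000 + n * 90000 + n.choose 2 * 300 + n.choose 3) • S0 K i0)
        ≤ ht (pt4 (st n) 4) + hx ((300 + n) • S0 K i0) := by
      have h5 := (inv n).1
      rw [est] at h5 ⊢
      rw [hx_eq, hx_eq]
      refine le_trans (le_of_eq ?_) (ht_mul _ _)
      congr 1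
      exact (div_mul_cancel₀ _ h5).symm
    have h6 := hC n
    have h7 : (C + 3456) * (n + 1) ^ 5 = C * (n + 1) ^ 5 + 3456 * (n + 1) ^ 5 := by ring
    generalize ht (pt4 (st n) 4) = H at *
    have h8 : (C + 3456) * H = C * H + 3456 * H := by ring
    simp only at h6
    omega
  · have hM : ∀ k : ℕ, InM (freeField K t) 1 (k • S0 K i0) := fun k => by
      induction k with
      | zero =>
        rw [zero_nsmul]
        exact ⟨by change _ * 0 ∈ _; simp, by change _ * 0 ∈ _; simp⟩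
      | succ k ih =>
        rw [succ_nsmul]
        refine InM.add one_ne_zero (by simp) (by simpa using X_mem_freeField hit) ih ?_
        exact ⟨by simp [px_pt0], by simp [py_pt0]⟩
    have hx : ∀ k : ℕ, px (k • S0 K i0) ∈ freeField K t := fun k => by simpa using (hM k).1
    simp only
    rw [est]
    exact (freeField K t).div_mem (hx _) (hx _)

lemma orbit4 [DecidableEq (Fn σ K)] {w : ℕ → Fin 5 → Fn σ K} (h0 : w 0 0 = 1)
    (h : ∀ n, G4 (w n)) (hw : ∀ n i, w (n + 1) i = Phi4 i (w n)) :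
    ∃ (a b : Fn σ K) (hD : 64 * b ^ 3 + 27 * a ^ 4 ≠ 0)
      (s : (W a b).Point × (W a b).Point × (W a b).Point),
      ∀ n, Inv4 (st4 (pt0 hD) s n) ∧ pt4 (st4 (pt0 hD) s n) = w n := by
  obtain ⟨a, b, hD, s, h1, h2⟩ := exists_state4 h0 (h 0)
  refine ⟨a, b, hD, s, fun n => ?_⟩
  induction n with
  | zero => exact ⟨h1, h2⟩
  | succ n ih =>
    obtain ⟨k1, k2⟩ := step4 hD ih.1 (ih.2 ▸ h n)
    exact ⟨k1, funext fun i => by rw [hw, ← ih.2]; exact k2 i⟩

lemma up4 {w : ℕ → Fin 5 → Fn σ K} (h0 : w 0 0 = 1)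
    (h : ∀ n, G4 (w n)) (hw : ∀ n i, w (n + 1) i = Phi4 i (w n)) (i : Fin 5) :
    PB (fun n => ht (w n i)) 6 := by
  classical
  obtain ⟨a, b, hD, s, hs⟩ := orbit4 h0 h hw
  have l1 : ∀ T : (W a b).Point, PB (fun n => hx (n • T)) 6 := fun T =>
    (PB.hx_nsmul (e := 1) ⟨1, fun n => by rw [pow_one]; omega⟩ _).mono (by omega)
  have l2 : ∀ T : (W a b).Point, PB (fun n => hx (n.choose 2 • T)) 6 := fun T =>
    ((PB.choose 2).hx_nsmul _).mono (by omega)
  have h1 : PB (fun n => hx (s.1 + n • pt0 hD)) 6 := (PB.const _ _).hx_add (l1 _)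
  have h2 : PB (fun n => hx (s.2.1 + n • s.1 + n.choose 2 • pt0 hD)) 6 :=
    ((PB.const _ _).hx_add (l1 _)).hx_add (l2 _)
  have h3 : PB (fun n => hx (s.2.2 + n • s.2.1 + n.choose 2 • s.1 + n.choose 3 • pt0 hD)) 6 :=
    (((PB.const _ _).hx_add (l1 _)).hx_add (l2 _)).hx_add ((PB.choose 3).hx_nsmul _)
  refine ((((h1.cmul 5).add (h2.cmul 5)).add (h3.cmul 5)).add
    (PB.const (2 * (ht a + ht b)) _)).of_le fun n => ?_
  rw [← (hs n).2, st4_eq]
  exact ht_pt4 _ i

lemma back4 {w : ℕ → Fin 5 → Fn σ K} (h0 : w 0 0 = 1)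
    (h : ∀ n, G4 (w n)) (hw : ∀ n i, w (n + 1) i = Phi4 i (w n)) (M : Subfield (Fn σ K))
    (hM : ∀ i, w 1 i ∈ M) : ∀ i, w 0 i ∈ M := by
  classical
  obtain ⟨a, b, hD, s, hs⟩ := orbit4 h0 h hw
  rw [← (hs 0).2]
  rw [← (hs 1).2] at hM
  exact dom4 hD (hs 1).1 ((hs 1).2 ▸ h 1) M hM

lemma PB.step {f g : ℕ → ℕ} {l : ℕ} (h : ∀ n, f (n + 1) ≤ f n + g n) (hg : PB g l) :
    PB f (l + 1) := by
  obtain ⟨C, hC⟩ := hg
  refine ⟨C + f 0, fun n => ?_⟩
  induction n with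
  | zero => simp
  | succ n ih =>
    have h1 := h n
    have h2 := hC n
    have h3 : (n + 1) ^ l ≤ (n + 1 + 1) ^ l := Nat.pow_le_pow_left (by omega) _
    have h4 : (n + 1) ^ (l + 1) + (n + 1) ^ l ≤ (n + 1 + 1) ^ (l + 1) := by
      rw [pow_succ, pow_succ]; nlinarith
    have h5 : (C + f 0) * ((n + 1) ^ (l + 1) + (n + 1) ^ l) ≤ (C + f 0) * (n + 1 + 1) ^ (l + 1) :=
      Nat.mul_le_mul_left _ h4
    have h6 : C * (n + 1) ^ l ≤ (C + f 0) * (n + 1) ^ l := Nat.mul_le_mul_right _ (by omega)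
    rw [mul_add] at h5
    omega

end Pool.Agent.Lib.MP_55ef7c_ag
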