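import Pool.Agent.Lib.MP_55ef7c_ag.Tower.B

/-!
A tower of multiplicative extensions over the sextic map.
-/

namespace Pool.Agent.Lib.MP_55ef7c_ag

open MvPolynomial

section General

variable {L : Type*} [Field L] {m : ℕ}

/-- The first five coordinates. -/
def lo (v : Fin (m + 5 + 1) → L) : Fin 5 → L := fun i => v (Fin.castLE (by omega) i)

/-- The coordinate with index `j`, or the first one if there is none. -/
def ix (m j : ℕ) : Fin (m + 5 + 1) := if h : j < m + 5 + 1 then ⟨j, h⟩ else 0

lemma ix_val {j : ℕ} (h : j < m + 5 + 1) : (ix m j).1 = j := by simp [ix, h]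

lemma ix_self (i : Fin (m + 5 + 1)) : ix m i.1 = i := Fin.ext (ix_val i.2)

/-- The multiplier of coordinate `j ≥ 5`. -/
def mu (j : ℕ) (v : Fin (m + 5 + 1) → L) : L :=
  if j = 5 then 1 else if j = 6 then v (ix m 4) / v 0 - v (ix m 5) / v 0 else v (ix m (j - 1)) / v 0

/-- The tower map. -/
def PhiT (i : Fin (m + 5 + 1)) (v : Fin (m + 5 + 1) → L) : L :=
  if h : i.1 < 5 then Phi4 ⟨i.1, h⟩ (lo v) else v i / v 0 * mu i.1 v

lemma PhiT_zero (v : Fin (m + 5 + 1) → L) : PhiT 0 v = 1 := by
  rw [PhiT, dif_pos (by simp)]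
  rfl

lemma lo_PhiT (v : Fin (m + 5 + 1) → L) (i : Fin 5) : lo (fun j => PhiT j v) i = Phi4 i (lo v) := by
  rw [lo, PhiT, dif_pos (by simp)]
  rfl

lemma PhiT_hi {i : Fin (m + 5 + 1)} (h : 5 ≤ i.1) (v : Fin (m + 5 + 1) → L) :
    PhiT i v = v i / v 0 * mu i.1 v := by
  rw [PhiT, dif_neg (by omega)]

omit [Field L] in
lemma lo_four (v : Fin (m + 5 + 1) → L) : lo v 4 = v (ix m 4) :=
  congrArg v (Fin.ext (ix_val (by omega)).symm)

variable {K : Type*} [Field K] [Algebra K L]

lemma isOp_T : IsOp K (fun v : Fin (m + 5 + 1) → L => G4 (lo v)) := by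
  obtain ⟨H, e, hH, h⟩ := isOp_G4 (K := K) (L := L)
  exact ⟨rename (Fin.castLE (by omega)) H, e, hH.rename_isHomogeneous, fun v => by
    rw [aeval_rename]; exact h _⟩

lemma rep_T (i : Fin (m + 5 + 1)) :
    Rep K (fun v : Fin (m + 5 + 1) → L => G4 (lo v)) (PhiT i) := by
  have c : ∀ j, Rep K (fun v : Fin (m + 5 + 1) → L => G4 (lo v)) (fun v => v j / v 0) :=
    fun j => Rep.coord j 0 fun v hv => hv.1
  by_cases h : i.1 < 5
  · obtain ⟨A, B, e, hA, hB, k⟩ := rep_Phi4 (K := K) (L := L) ⟨i.1, h⟩
    refine ⟨rename (Fin.castLE (by omega)) A, rename (Fin.castLE (by omega)) B, e,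
      hA.rename_isHomogeneous, hB.rename_isHomogeneous, fun v hv => ?_⟩
    rw [aeval_rename, aeval_rename, PhiT, dif_pos h]
    exact k _ hv
  · have e : PhiT (L := L) i = fun v => v i / v 0 * mu i.1 v :=
      funext fun v => PhiT_hi (by omega) v
    rw [e]
    refine (c i).mul ?_
    unfold mu
    split_ifs
    · exact Rep.one
    · exact (c _).sub (c _)
    · exact c _

end General

/-- An orbit of the tower map. -/
noncomputable def orb {L : Type*} [Field L] {m : ℕ} (v : Fin (m + 5 + 1) → L) :
    ℕ → Fin (m + 5 + 1) → L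
  | 0 => v
  | n + 1 => fun i => PhiT i (orb v n)

theorem tower (K : Type*) [Field K] (m : ℕ) :
    ∃ (f : Fin (m + 5 + 1) → MvPolynomial (Fin (m + 5 + 1)) K) (d : ℕ) (D : ℕ → ℕ),
      IsMap f d ∧ AlgebraicIndependent K f ∧ (∀ n e, HasDeg (iter f n) e ↔ e = D n) ∧
      ∃ c1 c2 n0 : ℕ, ∀ n ≥ n0, n ^ (m + 5 + 1) ≤ c1 * D n ∧ D n ≤ c2 * n ^ (m + 5 + 1) := by
  classical
  have h05 : (0 : Fin (m + 5 + 1)) ≠ ix m 5 := fun h => by
    have := congrArg Fin.val h
    rw [ix_val (by omega)] at this
    simp at this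
  obtain ⟨w, hw0, hwG, hw, ⟨C, hlow⟩, hfree⟩ := special4 K (0 : Fin (m + 5 + 1)) (ix m 5) h05
  obtain ⟨s, hs0, hs⟩ : ∃ s : ℕ → Fin (m + 5 + 1) → Fn (Fin (m + 5 + 1)) K,
      (∀ i, s 0 i = if h : i.1 < 5 then w 0 ⟨i.1, h⟩ else if i.1 = 5 then emb (X (ix m 5)) else 1) ∧
      ∀ n i, s (n + 1) i = PhiT i (s n) :=
    ⟨orb fun i => if h : i.1 < 5 then w 0 ⟨i.1, h⟩ else if i.1 = 5 then emb (X (ix m 5)) else 1,
      fun _ => rfl, fun _ _ => rfl⟩
  have hlo : ∀ n, lo (s n) = w n := fun n => by
    induction n with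
    | zero => exact funext fun i => by rw [lo, hs0, dif_pos (by simp)]; rfl
    | succ n ih => exact funext fun i => by rw [funext (hs n), lo_PhiT, ih, hw]
  have hs1 : ∀ n, s n 0 = 1 := fun n => by
    cases n
    · rw [hs0, dif_pos (by simp)]; exact hw0
    · rw [hs, PhiT_zero]
  have hg1 : ∀ n, gen (K := K) (PhiT (m := m)) n 0 = 1 := fun n => by
    cases n
    · exact div_self (emb_ne (X_ne_zero 0))
    · exact PhiT_zero _
  have hgl : ∀ n i, lo (gen (K := K) (PhiT (m := m)) (n + 1)) i
      = Phi4 i (lo (gen (K := K) (PhiT (m := m)) n)) := fun n i => lo_PhiT _ i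
  have hgh : ∀ n (i : Fin (m + 5 + 1)), 5 ≤ i.1 → gen (K := K) PhiT (n + 1) i
      = gen (K := K) PhiT n i * mu i.1 (gen (K := K) (PhiT (m := m)) n) := fun n i hi => by
    change PhiT i _ = _
    rw [PhiT_hi hi, hg1, div_one]
  refine framework (k := m + 5) isOp_T rep_T PhiT_zero s (hs1 0) (fun n => hlo n ▸ hwG n) hs
    ?_ ?_ ?_
  · obtain ⟨n0, hn0⟩ := choose_le_of hlow
    have ht5 : ∀ n, s n (ix m 5) = emb (X (ix m 5)) := fun n => by
      induction n with
      | zero => rw [hs0, dif_neg (by rw [ix_val (by omega)]; omega), if_pos (ix_val (by omega))]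
      | succ n ih =>
        rw [hs, PhiT_hi (by rw [ix_val (by omega)]), hs1, div_one, ih, ix_val (by omega), mu,
          if_pos rfl, mul_one]
    have key : ∀ j, j < m → ∀ n, QQ (ix m 5) (2 * C) (s n (ix m (6 + j)))
        ((n - n0).choose (6 + j + 1)) := fun j => by
      have z0 : ∀ j, j < m → s 0 (ix m (6 + j)) = 1 := fun j hj => by
        rw [hs0, dif_neg (by rw [ix_val (by omega)]; omega),
          if_neg (by rw [ix_val (by omega)]; omega)]
      have zs : ∀ j, j < m → ∀ n, s (n + 1) (ix m (6 + j))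
          = s n (ix m (6 + j)) * mu (6 + j) (s n) := fun j hj n => by
        rw [hs, PhiT_hi (by rw [ix_val (by omega)]; omega), hs1, div_one, ix_val (by omega)]
      induction j with
      | zero =>
        refine fun hj => QQ.step (z0 0 hj) (zs 0 hj) fun n => ?_
        rw [mu, if_neg (by omega), if_pos rfl, hs1, div_one, div_one, ht5, ← lo_four (s n), hlo]
        exact QQ.base (hfree n) (hn0 n)
      | succ j ih =>
        refine fun hj => QQ.step (z0 _ hj) (zs _ hj) fun n => ?_
        rw [mu, if_neg (by omega), if_neg (by omega), hs1, div_one]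
        exact ih (by omega) n
    rcases m with _ | m
    · exact ⟨C, ix 0 4, fun n => by rw [← lo_four (s n), hlo]; exact hlow n⟩
    · obtain ⟨C', hC'⟩ := pow_le_choose n0 (m + 1 + 5)
      refine ⟨C' * (2 * C) + C', ix (m + 1) (6 + m), fun n => (hC' n).trans ?_⟩
      have h1 := (key m (by omega) n).le_ht
      rw [show 6 + m + 1 = m + 1 + 5 + 1 by omega] at h1
      refine add_le_add ((Nat.mul_le_mul_left _ h1).trans ?_)
        (Nat.mul_le_mul_right _ (Nat.le_add_left _ _))
      rw [← mul_assoc]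
      exact Nat.mul_le_mul_right _ (Nat.le_add_right _ _)
  · intro h
    have u4 := up4 (w := fun n => lo (gen (K := K) (PhiT (m := m)) n)) (hg1 0) h hgl
    have u5 : PB (fun n => ht (gen (K := K) PhiT n (ix m 5))) 6 := by
      refine (PB.step (g := fun _ => 0) (fun n => ?_) (PB.const 0 5))
      rw [hgh _ _ (by rw [ix_val (by omega)]), ix_val (by omega), mu, if_pos rfl, mul_one]
      omega
    have uj : ∀ j, j < m → PB (fun n => ht (gen (K := K) PhiT n (ix m (6 + j)))) (6 + j + 1) :=
      fun j => by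
      have zs : ∀ j, j < m → ∀ n, ht (gen (K := K) PhiT (n + 1) (ix m (6 + j)))
          ≤ ht (gen (K := K) PhiT n (ix m (6 + j)))
            + ht (mu (6 + j) (gen (K := K) (PhiT (m := m)) n)) := fun j hj n => by
        rw [hgh _ _ (by rw [ix_val (by omega)]; omega), ix_val (by omega)]
        exact ht_mul _ _
      induction j with
      | zero =>
        refine fun hj => PB.step (zs 0 hj) (((u4 4).add u5).of_le fun n => ?_)
        rw [mu, if_neg (by omega), if_pos rfl, hg1, div_one, div_one, lo_four]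
        exact ht_sub _ _
      | succ j ih =>
        refine fun hj => PB.step (zs _ hj) ((ih (by omega)).of_le fun n => ?_)
        rw [mu, if_neg (by omega), if_neg (by omega), hg1, div_one]
        exact le_rfl
    refine PB.fin fun i => ?_
    rcases lt_trichotomy i.1 5 with hi | hi | hi
    · exact (u4 ⟨i.1, hi⟩).mono (by omega)
    · rw [← ix_self i, hi]
      exact u5.mono (by omega)
    · have := i.2
      rw [← ix_self i, show i.1 = 6 + (i.1 - 6) by omega]
      exact (uj _ (by omega)).mono (by omega)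
  · intro h M hM
    have b4 := back4 (w := fun n => lo (gen (K := K) (PhiT (m := m)) n)) (hg1 0) h hgl M
      fun i => hM _
    have hX0 : emb (X 0 : PR (m + 5) K) ≠ 0 := emb_ne (X_ne_zero 0)
    have all : ∀ j, j < m + 5 + 1 → gen (K := K) PhiT 0 (ix m j) ∈ M := fun j => by
      induction j using Nat.strong_induction_on with
      | _ j ih =>
        intro hj
        rcases lt_or_ge j 5 with h5 | h5
        · exact b4 ⟨(ix m j).1, by rw [ix_val hj]; exact h5⟩
        · have k := hM (ix m j)
          rw [hgh 0 _ (by rw [ix_val hj]; exact h5), ix_val hj] at k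
          have hmu : mu j (gen (K := K) (PhiT (m := m)) 0) ∈ M ∧
              mu j (gen (K := K) (PhiT (m := m)) 0) ≠ 0 := by
            unfold mu
            rw [hg1]
            split_ifs with h1 h2
            · exact ⟨M.one_mem, one_ne_zero⟩
            · rw [div_one, div_one]
              refine ⟨M.sub_mem (ih 4 (by omega) (by omega)) (ih 5 (by omega) (by omega)), ?_⟩
              rw [sub_ne_zero]
              intro e
              have e1 := X_injective (emb_inj ((div_left_inj' hX0).1 e))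
              have := congrArg Fin.val e1
              rw [ix_val (by omega), ix_val (by omega)] at this
              omega
            · rw [div_one]
              exact ⟨ih _ (by omega) (by omega), div_ne_zero (emb_ne (X_ne_zero _)) hX0⟩
          have := M.div_mem k hmu.1
          rwa [mul_div_cancel_right₀ _ hmu.2] at this
    exact fun i => ix_self i ▸ all i.1 i.2

end Pool.Agent.Lib.MP_55ef7c_ag
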